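import Pool.Agent.Helper21.CU.St

set_option autoImplicit false

/-!
# Project CU, module PIG: pigeonhole
-/

namespace Pool.Agent.Helper4.CU

open Pool.Agent.Helper21.CU Finset

theorem hPIG : StPIG := by
  intro k s v hs hv
  have hex : ∃ T : ℕ, s < T ^ 3 := by
    refine ⟨s + 1, ?_⟩
    calc s < s + 1 := Nat.lt_succ_self s
      _ ≤ (s + 1) ^ 3 := Nat.le_self_pow (by norm_num) _
  classical
  obtain ⟨T, hT, hmin⟩ : ∃ T : ℕ, s < T ^ 3 ∧ ∀ m < T, m ^ 3 ≤ s := by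
    refine ⟨Nat.find hex, Nat.find_spec hex, fun m hm => ?_⟩
    exact not_lt.mp (Nat.find_min hex hm)
  have hT1 : 1 ≤ T := by
    rcases Nat.eq_zero_or_pos T with h | h
    · subst h; simp at hT
    · exact h
  have hv3 : (s : ℤ) ∣ (v : ℤ) ^ 3 - k := by
    have := (mem_filter.mp hv).2
    exact this
  have hcard : (range s).card < (range T ×ˢ range T ×ˢ range T).card := by
    rw [card_product, card_product, card_range, card_range]
    calc s < T ^ 3 := hT
      _ = T * (T * T) := by ring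
  obtain ⟨⟨a, b, c⟩, hx, ⟨a', b', c'⟩, hy, hne, hfe⟩ :=
    Finset.exists_ne_map_eq_of_card_lt_of_maps_to hcard
      (f := fun q : ℕ × ℕ × ℕ => (q.1 + q.2.1 * v + q.2.2 * v ^ 2) % s)
      (fun q _ => by
        simp only [coe_range, Set.mem_Iio]
        exact Nat.mod_lt _ hs)
  simp only [mem_product, mem_range] at hx hy
  have hb : ∀ m n : ℕ, m < T → n < T → |(m : ℤ) - n| ^ 3 ≤ s := by
    intro m n hm hn
    have h1 : |(m : ℤ) - n| ≤ ((T - 1 : ℕ) : ℤ) := by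
      rw [abs_le]
      constructor <;> omega
    calc |(m : ℤ) - n| ^ 3 ≤ ((T - 1 : ℕ) : ℤ) ^ 3 := pow_le_pow_left₀ (abs_nonneg _) h1 3
      _ = (((T - 1) ^ 3 : ℕ) : ℤ) := by push_cast; ring
      _ ≤ s := by
        exact_mod_cast hmin (T - 1) (by omega)
  have hd : (s : ℤ) ∣ ((a : ℤ) - a') + ((b : ℤ) - b') * v + ((c : ℤ) - c') * v ^ 2 := by
    have h2 : (a' + b' * v + c' * v ^ 2) ≡ (a + b * v + c * v ^ 2) [MOD s] := hfe.symm
    have h3 := (Nat.modEq_iff_dvd.mp h2)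
    push_cast at h3
    have h4 : ((a : ℤ) - a') + ((b : ℤ) - b') * v + ((c : ℤ) - c') * v ^ 2 =
        (a + b * v + c * v ^ 2) - (a' + b' * v + c' * v ^ 2) := by ring
    rw [h4]
    exact h3
  refine ⟨(a : ℤ) - a', (b : ℤ) - b', (c : ℤ) - c', ?_, hb a a' hx.1 hy.1,
    hb b b' hx.2.1 hy.2.1, hb c c' hx.2.2 hy.2.2, hd, ?_⟩
  · rintro ⟨h1, h2, h3⟩
    apply hne
    have h1' : a = a' := by omega
    have h2' : b = b' := by omega
    have h3' : c = c' := by omega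
    rw [h1', h2', h3']
  · obtain ⟨m, hm⟩ := hd
    obtain ⟨n, hn⟩ := hv3
    generalize (a : ℤ) - a' = u at *
    generalize (b : ℤ) - b' = t at *
    generalize (c : ℤ) - c' = w at *
    refine ⟨m * ((u ^ 2 - k * t * w) + (k * w ^ 2 - u * t) * v + (t ^ 2 - u * w) * v ^ 2) -
      n * (t * (t ^ 2 - u * w) + w * (k * w ^ 2 - u * t) + v * w * (t ^ 2 - u * w)), ?_⟩
    unfold Nf
    linear_combination ((u ^ 2 - k * t * w) + (k * w ^ 2 - u * t) * v +
      (t ^ 2 - u * w) * v ^ 2) * hm -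
      (t * (t ^ 2 - u * w) + w * (k * w ^ 2 - u * t) + v * w * (t ^ 2 - u * w)) * hn

end Pool.Agent.Helper4.CU
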