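import Pool.Agent.Helper21.CU.St
import Pool.Agent.Helper48.BK.StD

set_option autoImplicit false

/-!
# Project CU, module M3: Mertens modulo 3
-/

namespace Pool.Agent.Helper4.CU

open Pool.Agent.Helper21.CU Finset
open Pool.Agent.Helper48.BK (th StSW)

noncomputable section

def ff (n : ℕ) : ℝ := 1 / ((n : ℝ) * Real.log n)

def gg (n : ℕ) : ℝ := 1 / Real.log n

def ll (n : ℕ) : ℝ := Real.log (Real.log n)

def cc (n : ℕ) : ℝ := if n ≡ 2 [MOD 3] then th n else 0

def EE (n : ℕ) : ℝ := ∑ m ∈ Ioc 0 n, cc m - n / 2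

def Sp (n : ℕ) : ℝ := ∑ m ∈ Ioc 0 n, cc m * ff m

lemma log_ge_one {n : ℕ} (hn : 3 ≤ n) : 1 ≤ Real.log n := by
  have h3 : (3 : ℝ) ≤ n := by exact_mod_cast hn
  rw [Real.le_log_iff_exp_le (by linarith)]
  have := Real.exp_one_lt_d9
  linarith

lemma log_diff_le {n : ℕ} (hn : 1 ≤ n) :
    Real.log ((n + 1 : ℕ) : ℝ) - Real.log n ≤ 1 / n := by
  have h0 : (0 : ℝ) < n := by exact_mod_cast hn
  rw [← Real.log_div (by positivity) (by positivity)]
  have h1 := Real.log_le_sub_one_of_pos (x := ((n + 1 : ℕ) : ℝ) / n) (by positivity)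
  refine h1.trans (le_of_eq ?_)
  push_cast
  field_simp
  ring

lemma log_diff_ge {n : ℕ} (hn : 1 ≤ n) :
    1 / ((n + 1 : ℕ) : ℝ) ≤ Real.log ((n + 1 : ℕ) : ℝ) - Real.log n := by
  have h0 : (0 : ℝ) < n := by exact_mod_cast hn
  have h1 := Real.log_le_sub_one_of_pos (x := (n : ℝ) / ((n + 1 : ℕ) : ℝ)) (by positivity)
  rw [Real.log_div (by positivity) (by positivity)] at h1
  have h2 : (n : ℝ) / ((n + 1 : ℕ) : ℝ) - 1 = - (1 / ((n + 1 : ℕ) : ℝ)) := by
    push_cast
    field_simp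
    ring
  linarith

lemma ll_le {n : ℕ} (hn : 3 ≤ n) : ll (n + 1) - ll n ≤ ff n := by
  have ha := log_ge_one hn
  have hb := log_ge_one (n := n + 1) (by omega)
  have h0 : (0 : ℝ) < n := by
    have : 0 < n := by omega
    exact_mod_cast this
  unfold ll
  rw [← Real.log_div (by linarith) (by linarith)]
  have h1 := Real.log_le_sub_one_of_pos (x := Real.log ((n + 1 : ℕ) : ℝ) / Real.log n)
    (by positivity)
  refine h1.trans ?_
  have h2 := log_diff_le (n := n) (by omega)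
  have h3 : Real.log ((n + 1 : ℕ) : ℝ) / Real.log n - 1 =
      (Real.log ((n + 1 : ℕ) : ℝ) - Real.log n) / Real.log n := by
    field_simp
  rw [h3]
  have h4 : ff n = (1 / n) / Real.log n := by
    unfold ff
    rw [div_div]
  rw [h4]
  gcongr

lemma ff_le {n : ℕ} (hn : 3 ≤ n) : ff (n + 1) ≤ ll (n + 1) - ll n := by
  have ha := log_ge_one hn
  have hb := log_ge_one (n := n + 1) (by omega)
  have h0 : (0 : ℝ) < n := by
    have : 0 < n := by omega
    exact_mod_cast this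
  unfold ll
  have h1 := Real.log_le_sub_one_of_pos (x := Real.log n / Real.log ((n + 1 : ℕ) : ℝ))
    (by positivity)
  rw [Real.log_div (by linarith) (by linarith)] at h1
  have h2 := log_diff_ge (n := n) (by omega)
  have h3 : Real.log n / Real.log ((n + 1 : ℕ) : ℝ) - 1 =
      - ((Real.log ((n + 1 : ℕ) : ℝ) - Real.log n) / Real.log ((n + 1 : ℕ) : ℝ)) := by
    field_simp
    ring
  rw [h3] at h1
  have h4 : ff (n + 1) ≤
      (Real.log ((n + 1 : ℕ) : ℝ) - Real.log n) / Real.log ((n + 1 : ℕ) : ℝ) := by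
    unfold ff
    rw [← div_div]
    gcongr
  linarith

lemma ff_nonneg (n : ℕ) : 0 ≤ ff n := by
  unfold ff
  have := Real.log_natCast_nonneg n
  positivity

lemma ff_anti {n : ℕ} (hn : 3 ≤ n) : ff (n + 1) ≤ ff n := (ff_le hn).trans (ll_le hn)

lemma ff_le_one {n : ℕ} (hn : 3 ≤ n) : ff n ≤ 1 := by
  have ha := log_ge_one hn
  have h3 : (3 : ℝ) ≤ n := by exact_mod_cast hn
  unfold ff
  rw [div_le_one (by positivity)]
  nlinarith

lemma gg_le_one {n : ℕ} (hn : 3 ≤ n) : gg n ≤ 1 := by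
  have ha := log_ge_one hn
  unfold gg
  rw [div_le_one (by positivity)]
  exact ha

lemma gg_nonneg (n : ℕ) : 0 ≤ gg n := by
  unfold gg
  have := Real.log_natCast_nonneg n
  positivity

lemma key {n : ℕ} (hn : 3 ≤ n) :
    (n : ℝ) / Real.log n * (ff n - ff (n + 1)) ≤ 2 * (gg n - gg (n + 1)) := by
  have ha := log_ge_one hn
  have hb := log_ge_one (n := n + 1) (by omega)
  have h0 : (0 : ℝ) < n := by
    have : 0 < n := by omega
    exact_mod_cast this
  have h2 := log_diff_ge (n := n) (by omega)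
  have h5 : (1 : ℝ) ≤ ((n : ℝ) + 1) * (Real.log ((n + 1 : ℕ) : ℝ) - Real.log n) := by
    have h6 : (0 : ℝ) < (n : ℝ) + 1 := by positivity
    calc (1 : ℝ) = ((n : ℝ) + 1) * (1 / ((n + 1 : ℕ) : ℝ)) := by push_cast; field_simp
      _ ≤ _ := mul_le_mul_of_nonneg_left h2 h6.le
  unfold ff gg
  have hc : ((n + 1 : ℕ) : ℝ) = (n : ℝ) + 1 := by push_cast; ring
  generalize hA : Real.log n = a at *
  generalize hB : Real.log ((n + 1 : ℕ) : ℝ) = b at *
  rw [hc]
  generalize (n : ℝ) = x at *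
  have e1 : x / a * (1 / (x * a) - 1 / ((x + 1) * b)) =
      ((x + 1) * b - x * a) / ((x + 1) * a ^ 2 * b) := by
    field_simp
  have e2 : 2 * (1 / a - 1 / b) = (2 * (b - a) * (x + 1) * a) / ((x + 1) * a ^ 2 * b) := by
    field_simp
  rw [e1, e2]
  gcongr
  nlinarith [mul_nonneg (sub_nonneg.mpr h5) (sub_nonneg.mpr ha)]

def FF (n : ℕ) : ℝ := Sp n - 1 / 2 * ll (n + 1) - EE n * ff (n + 1)

lemma FF_succ (n : ℕ) : FF (n + 1) - FF n =
    EE (n + 1) * (ff (n + 1) - ff (n + 2)) + 1 / 2 * (ff (n + 1) - (ll (n + 2) - ll (n + 1))) := by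
  have h1 : Sp (n + 1) = Sp n + cc (n + 1) * ff (n + 1) := by
    unfold Sp
    rw [Finset.sum_Ioc_succ_top (by omega)]
  have h2 : EE (n + 1) = EE n + cc (n + 1) - 1 / 2 := by
    unfold EE
    rw [Finset.sum_Ioc_succ_top (by omega)]
    push_cast
    ring
  unfold FF
  rw [h1, h2]
  ring

lemma FF_bound (n₀ : ℕ) (h3 : 3 ≤ n₀)
    (hE : ∀ n, n₀ ≤ n → |EE n| ≤ (n : ℝ) / Real.log n) (n : ℕ) (hn : n₀ ≤ n) :
    |FF n - FF n₀| ≤ 2 * (gg (n₀ + 1) - gg (n + 1)) + 1 / 2 * (ff (n₀ + 1) - ff (n + 1)) := by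
  induction n, hn using Nat.le_induction with
  | base => simp
  | succ n hn ih =>
    have e := FF_succ n
    have h1 : |FF (n + 1) - FF n| ≤
        2 * (gg (n + 1) - gg (n + 2)) + 1 / 2 * (ff (n + 1) - ff (n + 2)) := by
      rw [e]
      refine (abs_add_le _ _).trans (add_le_add ?_ ?_)
      · have h4 : 0 ≤ ff (n + 1) - ff (n + 2) :=
          sub_nonneg.mpr (ff_anti (n := n + 1) (by omega))
        rw [abs_mul, abs_of_nonneg h4]
        exact (mul_le_mul_of_nonneg_right (hE (n + 1) (by omega)) h4).trans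
          (key (n := n + 1) (by omega))
      · have h5 := ll_le (n := n + 1) (by omega)
        have h6 := ff_le (n := n + 1) (by omega)
        rw [abs_of_nonneg (by linarith)]
        linarith
    calc |FF (n + 1) - FF n₀| = |(FF (n + 1) - FF n) + (FF n - FF n₀)| := by
          congr 1; ring
      _ ≤ |FF (n + 1) - FF n| + |FF n - FF n₀| := abs_add_le _ _
      _ ≤ (2 * (gg (n + 1) - gg (n + 2)) + 1 / 2 * (ff (n + 1) - ff (n + 2))) +
          (2 * (gg (n₀ + 1) - gg (n + 1)) + 1 / 2 * (ff (n₀ + 1) - ff (n + 1))) :=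
          add_le_add h1 ih
      _ = 2 * (gg (n₀ + 1) - gg (n + 1 + 1)) + 1 / 2 * (ff (n₀ + 1) - ff (n + 1 + 1)) := by
          ring

lemma sum_eq_Sp (n : ℕ) :
    ∑ p ∈ (Icc 1 n).filter (fun p : ℕ => p.Prime ∧ p % 3 = 2), (1 : ℝ) / p = Sp n := by
  unfold Sp
  have hI : Icc 1 n = Ioc 0 n := by
    ext m
    simp only [mem_Icc, mem_Ioc]
    omega
  rw [sum_filter, hI]
  refine Finset.sum_congr rfl fun p _ => ?_
  unfold cc ff th
  by_cases h2 : p % 3 = 2
  · have h2' : p ≡ 2 [MOD 3] := h2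
    rw [if_pos h2']
    by_cases hp : p.Prime
    · rw [if_pos ⟨hp, h2⟩, if_pos hp]
      have h1 : (1 : ℝ) < p := by exact_mod_cast hp.one_lt
      have hl : 0 < Real.log p := Real.log_pos h1
      field_simp
    · rw [if_neg (fun h => hp h.1), if_neg hp, zero_mul]
  · have h2' : ¬ p ≡ 2 [MOD 3] := h2
    rw [if_neg h2', if_neg (fun h => h2 h.2), zero_mul]

lemma E_bound (hSW : StSW) : ∃ n₀ : ℕ, 3 ≤ n₀ ∧
    ∀ n, n₀ ≤ n → |EE n| ≤ (n : ℝ) / Real.log n := by
  obtain ⟨x₀, hx⟩ := hSW 1 1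
  refine ⟨max x₀ 21, by omega, fun n hn => ?_⟩
  have h21 : (21 : ℝ) ≤ n := by
    have : 21 ≤ n := le_trans (le_max_right _ _) hn
    exact_mod_cast this
  have hlog : (3 : ℝ) ≤ Real.log n := by
    rw [Real.le_log_iff_exp_le (by linarith)]
    have h1 := Real.exp_one_lt_d9
    have h2 : Real.exp 3 = Real.exp 1 ^ 3 := by
      rw [← Real.exp_nat_mul]; norm_num
    have h3 : Real.exp 1 ^ 3 ≤ (2.7182818286 : ℝ) ^ 3 :=
      pow_le_pow_left₀ (Real.exp_pos 1).le h1.le 3
    rw [h2]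
    norm_num at h3
    linarith
  have h := hx n n 3 2 (le_trans (le_max_left _ _) hn) le_rfl (by norm_num)
    (by rw [pow_one]; exact_mod_cast hlog)
  have hc : Nat.Coprime 2 3 := by norm_num
  have ht : Nat.totient 3 = 2 := by decide
  rw [if_pos hc, ht, pow_one] at h
  have e : EE n = ∑ m ∈ (Ioc 0 n).filter (fun m => m ≡ 2 [MOD 3]), th m - (n : ℝ) / (2 : ℕ) := by
    unfold EE cc
    rw [sum_filter]
    push_cast
    rfl
  rw [e]
  exact h

theorem hM3 (hSW : StSW) : StM3 := by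
  obtain ⟨n₀, h3, hE⟩ := E_bound hSW
  have hbig : ∀ n, n₀ ≤ n → |Sp n - 1 / 2 * ll (n + 1)| ≤ |FF n₀| + 4 := by
    intro n hn
    have h1 := FF_bound n₀ h3 hE n hn
    have h2 : |EE n * ff (n + 1)| ≤ 1 := by
      have hl := log_ge_one (n := n) (by omega)
      have h0 : (0 : ℝ) < n := by
        have : 0 < n := by omega
        exact_mod_cast this
      rw [abs_mul, abs_of_nonneg (ff_nonneg _)]
      calc |EE n| * ff (n + 1) ≤ (n : ℝ) / Real.log n * ff n :=
            mul_le_mul (hE n hn) (ff_anti (by omega)) (ff_nonneg _) (by positivity)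
        _ = 1 / Real.log n ^ 2 := by
            unfold ff
            field_simp
        _ ≤ 1 := by
            rw [div_le_one (by positivity)]
            nlinarith
    have e : Sp n - 1 / 2 * ll (n + 1) = (FF n - FF n₀) + FF n₀ + EE n * ff (n + 1) := by
      unfold FF
      ring
    rw [e]
    have g1 := gg_le_one (n := n₀ + 1) (by omega)
    have g2 := gg_nonneg (n + 1)
    have f1 := ff_le_one (n := n₀ + 1) (by omega)
    have f2 := ff_nonneg (n + 1)
    have t1 := abs_add_le ((FF n - FF n₀) + FF n₀) (EE n * ff (n + 1))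
    have t2 := abs_add_le (FF n - FF n₀) (FF n₀)
    linarith
  set K : ℝ := ∑ n ∈ range n₀, |Sp n - 1 / 2 * ll (n + 1)| with hK
  have hK0 : 0 ≤ K := Finset.sum_nonneg fun _ _ => abs_nonneg _
  have hall : ∀ n, |Sp n - 1 / 2 * ll (n + 1)| ≤ K + |FF n₀| + 4 := by
    intro n
    rcases lt_or_ge n n₀ with h | h
    · have h1 : |Sp n - 1 / 2 * ll (n + 1)| ≤ K :=
        Finset.single_le_sum (f := fun n => |Sp n - 1 / 2 * ll (n + 1)|)
          (fun _ _ => abs_nonneg _) (mem_range.mpr h)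
      have := abs_nonneg (FF n₀)
      linarith
    · have := hbig n h
      linarith
  refine ⟨K + |FF n₀| + 5, by positivity, fun x hx => ?_⟩
  set n := ⌊x⌋₊ with hn
  have hn3 : 3 ≤ n := Nat.le_floor (by exact_mod_cast hx)
  rw [sum_eq_Sp]
  have hle : (n : ℝ) ≤ x := Nat.floor_le (by linarith)
  have hlt : x < ((n + 1 : ℕ) : ℝ) := by
    push_cast
    exact Nat.lt_floor_add_one x
  have h3n : (3 : ℝ) ≤ n := by exact_mod_cast hn3
  have hl := log_ge_one hn3
  have hlx : Real.log n ≤ Real.log x := Real.log_le_log (by linarith) hle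
  have hlx2 : Real.log x ≤ Real.log ((n + 1 : ℕ) : ℝ) := Real.log_le_log (by linarith) hlt.le
  have a1 : ll n ≤ Real.log (Real.log x) := Real.log_le_log (by linarith) hlx
  have a2 : Real.log (Real.log x) ≤ ll (n + 1) := Real.log_le_log (by linarith) hlx2
  have a3 := ll_le hn3
  have a4 := ff_le_one hn3
  have a5 : |1 / 2 * (ll (n + 1) - Real.log (Real.log x))| ≤ 1 := by
    rw [abs_of_nonneg (by linarith)]
    linarith
  have e : Sp n - 1 / 2 * Real.log (Real.log x) = (Sp n - 1 / 2 * ll (n + 1)) +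
      1 / 2 * (ll (n + 1) - Real.log (Real.log x)) := by ring
  rw [e]
  have := hall n
  have t := abs_add_le (Sp n - 1 / 2 * ll (n + 1)) (1 / 2 * (ll (n + 1) - Real.log (Real.log x)))
  linarith

end

end Pool.Agent.Helper4.CU
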